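import Pool.Agent.StftSparse.Main

/-!
# MP_4928aa_an: uniqueness pairs for STFT phase retrieval with arbitrarily large separation

The definitions are in `Pool/Agent/StftSparse/Statement.lean`.
-/

set_option autoImplicit false

open MeasureTheory Pool.Agent.StftSparse

namespace Pool.Agent.Results.MP_4928aa_an.SparsePairs

/-- For every real `R` there are a window `g ∈ L²(ℝ)` and a set `L` in the first quadrant, any two
distinct points of which are at Euclidean distance at least `R`, such that `(g, L)` is a
uniqueness pair for STFT phase retrieval. -/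
theorem result (R : ℝ) : ∃ (g : ℝ → ℂ) (L : Set (ℝ × ℝ)), MemLp g 2 volume ∧
    (∀ p ∈ L, 0 ≤ p.1 ∧ 0 ≤ p.2) ∧
    (∀ p ∈ L, ∀ q ∈ L, p ≠ q → R ≤ Real.sqrt ((p.1 - q.1) ^ 2 + (p.2 - q.2) ^ 2)) ∧
    IsUniquenessPair g L :=
  Pool.Agent.StftSparse.main R

end Pool.Agent.Results.MP_4928aa_an.SparsePairs
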